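import Pool.Agent.X171.LZ.Basis

/-!
# MP_c4013e_an: a bidemocratic basis does not force `p`-normable subspaces
-/

namespace Pool.Agent.Results.MP_c4013e_an.LorentzCounterexample

section Defs

variable (𝕜 : Type) [RCLike 𝕜] {X : Type} [AddCommGroup X] [Module 𝕜 X]

/-- `q` is a quasi-norm on the `𝕜`-vector space `X`. -/
structure IsQuasiNorm (q : X → ℝ) : Prop where
  nonneg : ∀ x, 0 ≤ q x
  eq_zero_iff : ∀ x, q x = 0 ↔ x = 0
  smul : ∀ (c : 𝕜) (x : X), q (c • x) = ‖c‖ * q x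
  add_le : ∃ K : ℝ, ∀ x y, q (x + y) ≤ K * (q x + q y)

omit [Module 𝕜 X] in
/-- Every `q`-Cauchy sequence `q`-converges. -/
def IsCompleteQ (q : X → ℝ) : Prop :=
  ∀ x : ℕ → X, (∀ ε : ℝ, 0 < ε → ∃ N, ∀ i, N ≤ i → ∀ j, N ≤ j → q (x i - x j) < ε) →
    ∃ y, ∀ ε : ℝ, 0 < ε → ∃ N, ∀ i, N ≤ i → q (x i - y) < ε

/-- `x` is a basis with coordinate functionals `f`. -/
structure IsBasis (q : X → ℝ) (x : ℕ → X) (f : ℕ → X →ₗ[𝕜] 𝕜) : Prop where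
  dense : ∀ (y : X) (ε : ℝ), 0 < ε → ∃ z ∈ Submodule.span 𝕜 (Set.range x), q (y - z) < ε
  biorth : ∀ k n, f k (x n) = if k = n then 1 else 0
  seminormalized : ∃ c C : ℝ, 0 < c ∧ ∀ n, c ≤ q (x n) ∧ q (x n) ≤ C
  bounded : ∃ C : ℝ, ∀ n y, ‖f n y‖ ≤ C * q y

/-- The basis is bidemocratic: `φ(m) φ*(m) ≤ C m` for all `m ≥ 1`, the two suprema written out. -/
def Bidemocratic (q : X → ℝ) (x : ℕ → X) (f : ℕ → X →ₗ[𝕜] 𝕜) : Prop :=
  ∃ C : ℝ, ∀ m : ℕ, 1 ≤ m → ∀ A B : Finset ℕ, A.card ≤ m → B.card ≤ m → ∀ y : X, q y ≤ 1 →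
    q (∑ n ∈ A, x n) * ‖∑ n ∈ B, f n y‖ ≤ C * m

/-- `N` is a `p`-norm. -/
structure IsPNorm (p : ℝ) {Y : Type} [AddCommGroup Y] [Module 𝕜 Y] (N : Y → ℝ) : Prop where
  quasi : IsQuasiNorm 𝕜 N
  pow_add_le : ∀ x y, N (x + y) ^ p ≤ N x ^ p + N y ^ p

/-- The subspace `Y` has an equivalent `p`-norm. -/
def HasEquivPNorm (p : ℝ) (q : X → ℝ) (Y : Submodule 𝕜 X) : Prop :=
  ∃ (N : Y → ℝ) (C : ℝ), IsPNorm 𝕜 p N ∧ 1 ≤ C ∧
    ∀ y : Y, C⁻¹ * q (y : X) ≤ N y ∧ N y ≤ C * q (y : X)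

end Defs

open Pool.Agent.X171.LZ Filter Topology

/-- **Q1, answered negatively.** For every `0 < p < 1` there is an infinite-dimensional
quasi-Banach space (real or complex) with a bidemocratic basis, none of whose infinite-dimensional
subspaces has an equivalent `p`-norm. -/
theorem result : ∀ (𝕜 : Type) [RCLike 𝕜] (p : ℝ), 0 < p → p < 1 →
    ∃ (X : Type) (_ : AddCommGroup X) (_ : Module 𝕜 X) (q : X → ℝ) (x : ℕ → X)
      (f : ℕ → X →ₗ[𝕜] 𝕜),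
      IsQuasiNorm 𝕜 q ∧ IsCompleteQ q ∧ ¬ FiniteDimensional 𝕜 X ∧ IsBasis 𝕜 q x f ∧
      Bidemocratic 𝕜 q x f ∧
      ∀ Y : Submodule 𝕜 X, ¬ FiniteDimensional 𝕜 Y → ¬ HasEquivPNorm 𝕜 p q Y := by
  intro 𝕜 _ p hp hp1
  set r : ℝ := p / 2 with hrp
  have hr : 0 < r := by positivity
  have hr1 : r < 1 := by linarith
  refine ⟨X 𝕜 r hr hr1, inferInstance, inferInstance, q, e 𝕜 r hr hr1, co 𝕜 r hr hr1,
    ⟨q_nonneg, q_eq_zero, q_smul, ⟨_, q_add⟩⟩, complete, infdim,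
    ⟨fun y ε hε => span_dense y hε, fun k n => ?_, ⟨1, 1, one_pos, fun n => ?_⟩,
      ⟨1, fun n y => ?_⟩⟩, ⟨2, fun m _ A B hA hB y hy => bidem m A B hA hB y hy⟩, ?_⟩
  · rw [co_apply, e_apply]
  · rw [q_e]
    exact ⟨le_rfl, le_rfl⟩
  · rw [one_mul]
    exact co_le n y
  · rintro Y hY ⟨N, C, hN, hC1, hNC⟩
    classical
    have hC0 : 0 < C := lt_of_lt_of_le one_pos hC1
    -- extend `N` by zero
    set N' : X 𝕜 r hr hr1 → ℝ := fun y => if h : y ∈ Y then N ⟨y, h⟩ else 0 with hN'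
    have hN'e : ∀ (y : X 𝕜 r hr hr1) (h : y ∈ Y), N' y = N ⟨y, h⟩ := fun y h => dif_pos h
    have hN0 : N' 0 = 0 := by
      rw [hN'e 0 Y.zero_mem]
      exact (hN.quasi.eq_zero_iff _).mpr rfl
    have hone : ∀ y ∈ Y, nu r ((y : X 𝕜 r hr hr1) : ℕ → 𝕜) = 1 → N' y ^ p ≤ C ^ p := by
      intro y hy h1
      rw [hN'e y hy]
      have h2 := (hNC ⟨y, hy⟩).2
      have h3 : q (y : X 𝕜 r hr hr1) = 1 := by
        unfold q
        rw [h1, Real.one_rpow]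
      rw [h3, mul_one] at h2
      exact Real.rpow_le_rpow (hN.quasi.nonneg _) h2 hp.le
    have hadd : ∀ y ∈ Y, ∀ z ∈ Y, N' (y + z) ^ p ≤ N' y ^ p + N' z ^ p := by
      intro y hy z hz
      rw [hN'e y hy, hN'e z hz, hN'e _ (Y.add_mem hy hz)]
      exact hN.pow_add_le ⟨y, hy⟩ ⟨z, hz⟩
    have hz : N' 0 ^ p ≤ 0 := by
      rw [hN0, Real.zero_rpow hp.ne']
    have hmain := main Y hY N' p (C ^ p) hone hadd hz
    -- a large number of summands gives a contradiction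
    obtain ⟨m, hm⟩ := exists_nat_gt (4 * (C ^ p * C ^ p))
    have hmpos : (0 : ℝ) < m := lt_of_le_of_lt (by positivity) hm
    obtain ⟨s, hsY, hs1, hs2⟩ := hmain m
    rw [hN'e s hsY] at hs2
    have h1 := (hNC ⟨s, hsY⟩).1
    have h2 : q s ≤ C * N ⟨s, hsY⟩ := by
      have := mul_le_mul_of_nonneg_left h1 hC0.le
      rwa [mul_inv_cancel_left₀ hC0.ne'] at this
    have h3 : q s ^ p ≤ C ^ p * (m * C ^ p) := by
      calc q s ^ p ≤ (C * N ⟨s, hsY⟩) ^ p := Real.rpow_le_rpow (q_nonneg s) h2 hp.le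
        _ = C ^ p * N ⟨s, hsY⟩ ^ p := Real.mul_rpow hC0.le (hN.quasi.nonneg _)
        _ ≤ C ^ p * (m * C ^ p) := mul_le_mul_of_nonneg_left hs2 (by positivity)
    have h4 : q s ^ p = (nu r (s : ℕ → 𝕜)) ^ 2 := by
      have e1 : p = r * 2 := by rw [hrp]; ring
      rw [e1, Real.rpow_mul (q_nonneg s), q_pow]
      norm_num
    rw [h4] at h3
    have h5 : ((m : ℝ) / 2) ^ 2 ≤ (nu r (s : ℕ → 𝕜)) ^ 2 := pow_le_pow_left₀ (by positivity) hs1 2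
    have h6 : (m : ℝ) * m ≤ m * (4 * (C ^ p * C ^ p)) := by nlinarith
    have h7 := le_of_mul_le_mul_left h6 hmpos
    linarith

end Pool.Agent.Results.MP_c4013e_an.LorentzCounterexample
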